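import Mathlib

set_option autoImplicit false

namespace Pool.Agent.helper133_ap

open Finset

/-- membership condition for the pair `(u,v)` being the `i`-th and the `j`-th term of a
`k`-progression inside `[0,n)`; here `m = j - i`. -/
def EP (k i m n u v : ℕ) : Prop :=
  u < v ∧ m ∣ (v - u) ∧ i * (v - u) ≤ m * u ∧ m * u + (k - 1 - i) * (v - u) < m * n

lemma right_ok {k i m n u v : ℕ} (hm : 1 ≤ m) (h : u + (k - 1) * (v - u) < n) :
    m * u + (k - 1 - i) * (v - u) < m * n := by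
  have h1 : (k - 1 - i) * (v - u) ≤ (k - 1) * (v - u) := Nat.mul_le_mul_right _ (by omega)
  have h2 : (k - 1) * (v - u) ≤ m * ((k - 1) * (v - u)) := Nat.le_mul_of_pos_left _ hm
  have h3 : m * (u + (k - 1) * (v - u)) < m * n := Nat.mul_lt_mul_of_pos_left h hm
  rw [mul_add] at h3
  omega

lemma EP_AA {k i m n t c u v : ℕ} (hm : 1 ≤ m) (hi : i < k) (hc : 4 * k * t ≤ c)
    (hn : c + 2 * t + (k - 1) * (2 * t) ≤ n)
    (hu : c ≤ u) (hu2 : u < c + 2 * t) (hv : c ≤ v) (hv2 : v < c + 2 * t) (huv : u < v) :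
    EP k i m n u v ↔ m ∣ (v - u) := by
  unfold EP
  constructor
  · rintro ⟨_, h, _⟩; exact h
  · intro h
    refine ⟨huv, h, ?_, ?_⟩
    · have h1 : i * (v - u) ≤ k * (2 * t) := Nat.mul_le_mul hi.le (by omega)
      have h2 : u ≤ m * u := Nat.le_mul_of_pos_left _ hm
      have h3 : k * (2 * t) ≤ 4 * k * t := by nlinarith
      omega
    · apply right_ok hm
      have h1 : (k - 1) * (v - u) ≤ (k - 1) * (2 * t) := Nat.mul_le_mul_left _ (by omega)
      omega

lemma EP_AB {k i j n t u v : ℕ} (hij : i < j) (hj : j < k)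
    (hn : k * ((4 * k + 2) * t) ≤ n)
    (hu : 4 * k * t ≤ u) (hu2 : u < 4 * k * t + 2 * t) (hv : 2 * (4 * k * t) ≤ v)
    (hv2 : v < 2 * (4 * k * t) + 2 * t) :
    EP k i (j - i) n u v ↔ ((j - i) ∣ (v - u) ∧ i * v ≤ j * u) := by
  have ht : 0 < t := by
    rcases Nat.eq_zero_or_pos t with h | h
    · subst h; omega
    · exact h
  have huv : u < v := by
    have : 2 * t ≤ 4 * k * t := by nlinarith
    omega
  obtain ⟨m, rfl⟩ : ∃ m, j = i + m := ⟨j - i, by omega⟩
  have hm : 1 ≤ m := by omega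
  simp only [Nat.add_sub_cancel_left]
  obtain ⟨D, rfl⟩ : ∃ D, v = u + D := ⟨v - u, by omega⟩
  unfold EP
  simp only [Nat.add_sub_cancel_left]
  constructor
  · rintro ⟨_, h, h1, _⟩
    refine ⟨h, ?_⟩
    nlinarith
  · rintro ⟨h, h1⟩
    refine ⟨huv, h, by nlinarith, ?_⟩
    have := @right_ok k i m n u (u + D) hm
    simp only [Nat.add_sub_cancel_left] at this
    apply this
    have h2 : D ≤ (4 * k + 2) * t := by
      have : (4 * k + 2) * t = 4 * k * t + 2 * t := by ring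
      omega
    have h3 : (k - 1) * D ≤ (k - 1) * ((4 * k + 2) * t) := Nat.mul_le_mul_left _ h2
    have h4 : k * ((4 * k + 2) * t) = (k - 1) * ((4 * k + 2) * t) + (4 * k + 2) * t := by
      obtain ⟨k', rfl⟩ : ∃ k', k = k' + 1 := ⟨k - 1, by omega⟩
      simp only [Nat.add_sub_cancel]
      ring
    have : (4 * k + 2) * t = 4 * k * t + 2 * t := by ring
    omega

lemma AB_shift {k i j t u v : ℕ} (hij : i < j) (hj : j < k)
    (hu : 4 * k * t + t ≤ u) (hu2 : u < 4 * k * t + 2 * t) (hv : 2 * (4 * k * t) ≤ v)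
    (hv2 : v < 2 * (4 * k * t) + t) :
    (i * v ≤ j * u) ↔ (i * (v + t) ≤ j * u) := by
  constructor
  · intro h
    rcases Nat.lt_or_ge j (2 * i) with h2 | h2
    · exfalso
      have h3 : j * u ≤ (2 * i - 1) * u := Nat.mul_le_mul_right _ (by omega)
      obtain ⟨i', rfl⟩ : ∃ i', i = i' + 1 := ⟨i - 1, by omega⟩
      have h4 : 2 * (i' + 1) - 1 = 2 * i' + 1 := by omega
      rw [h4] at h3
      obtain ⟨w, rfl⟩ : ∃ w, k = i' + 2 + w := ⟨k - (i' + 2), by omega⟩
      nlinarith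
    · nlinarith
  · intro h
    have : i * v ≤ i * (v + t) := Nat.mul_le_mul_left _ (by omega)
    omega

end Pool.Agent.helper133_ap
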