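import Pool.Agent.helper133_ap.Form

set_option autoImplicit false

namespace Pool.Agent.helper133_ap

open Finset

/-- pairs (first term, difference) of the `k`-progressions inside `[0,n)` -/
def apPairs (k n : ℕ) : Finset (ℕ × ℕ) :=
  ((range n) ×ˢ (range n)).filter (fun p => 1 ≤ p.2 ∧ p.1 + (k - 1) * p.2 < n)

lemma mem_apPairs {k n : ℕ} (hk : 2 ≤ k) {p : ℕ × ℕ} :
    p ∈ apPairs k n ↔ 1 ≤ p.2 ∧ p.1 + (k - 1) * p.2 < n := by
  unfold apPairs
  simp only [mem_filter, mem_product, mem_range]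
  constructor
  · rintro ⟨_, h⟩; exact h
  · rintro ⟨h1, h2⟩
    have : p.2 ≤ (k - 1) * p.2 := Nat.le_mul_of_pos_left _ (by omega)
    exact ⟨⟨by omega, by omega⟩, h1, h2⟩

lemma ap_sum_eq {k n i j : ℕ} (hij : i < j) (hj : j < k) (F G : ℕ → ℤ) :
    ∑ p ∈ apPairs k n, F (p.1 + i * p.2) * G (p.1 + j * p.2)
      = ∑ u ∈ range n, ∑ v ∈ range n, F u * G v * ep k i (j - i) n u v := by
  have h1 : ∑ u ∈ range n, ∑ v ∈ range n, F u * G v * ep k i (j - i) n u v
      = ∑ q ∈ ((range n) ×ˢ (range n)).filter (fun q => EP k i (j - i) n q.1 q.2),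
        F q.1 * G q.2 := by
    rw [Finset.sum_filter, Finset.sum_product]
    apply Finset.sum_congr rfl
    intro u _
    apply Finset.sum_congr rfl
    intro v _
    unfold ep
    split_ifs <;> simp
  rw [h1]
  obtain ⟨m, hm⟩ : ∃ m, j = i + m := ⟨j - i, by omega⟩
  subst hm
  simp only [Nat.add_sub_cancel_left]
  have hm1 : 1 ≤ m := by omega
  apply Finset.sum_nbij' (fun p => (p.1 + i * p.2, p.1 + (i + m) * p.2))
    (fun q => (q.1 - i * ((q.2 - q.1) / m), (q.2 - q.1) / m))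
  · rintro ⟨a, d⟩ hp
    rw [mem_apPairs (by omega)] at hp
    obtain ⟨hd, hn⟩ := hp
    simp only at hd hn
    have h2 : (i + m) * d ≤ (k - 1) * d := Nat.mul_le_mul_right _ (by omega)
    have h3 : i * d ≤ (i + m) * d := Nat.mul_le_mul_right _ (by omega)
    have h4 : a + (i + m) * d - (a + i * d) = m * d := by
      have : (i + m) * d = i * d + m * d := by ring
      omega
    have h5 : 1 ≤ m * d := Nat.mul_pos hm1 hd
    have h6 : (i + m) * d = i * d + m * d := by ring
    simp only [mem_filter, mem_product, mem_range]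
    refine ⟨⟨by omega, by omega⟩, by omega, ?_, ?_, ?_⟩
    · rw [h4]; exact Dvd.intro _ rfl
    · rw [h4]
      nlinarith
    · rw [h4]
      obtain ⟨w, hw⟩ : ∃ w, k - 1 = i + w := ⟨k - 1 - i, by omega⟩
      rw [hw] at hn ⊢
      simp only [Nat.add_sub_cancel_left]
      nlinarith
  · rintro ⟨u, v⟩ hq
    simp only [mem_filter, mem_product, mem_range] at hq
    obtain ⟨⟨hu, hv⟩, huv, ⟨d, hd⟩, hl, hr⟩ := hq
    rw [mem_apPairs (by omega)]
    simp only
    rw [hd] at hl hr ⊢
    rw [Nat.mul_div_cancel_left _ hm1]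
    have hd1 : 1 ≤ d := by
      rcases Nat.eq_zero_or_pos d with h | h
      · subst h; omega
      · exact h
    refine ⟨hd1, ?_⟩
    have hl' : i * d ≤ u := by
      have : m * (i * d) ≤ m * u := by nlinarith
      exact Nat.le_of_mul_le_mul_left this hm1
    obtain ⟨w, hw⟩ : ∃ w, k - 1 = i + w := ⟨k - 1 - i, by omega⟩
    rw [hw] at hr ⊢
    simp only [Nat.add_sub_cancel_left] at hr
    have hr' : m * (u + w * d) < m * n := by nlinarith
    have hr2 : u + w * d < n := Nat.lt_of_mul_lt_mul_left hr'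
    have : (i + w) * d = i * d + w * d := by ring
    omega
  · rintro ⟨a, d⟩ hp
    have h4 : a + (i + m) * d - (a + i * d) = m * d := by
      have : (i + m) * d = i * d + m * d := by ring
      omega
    simp only [h4, Nat.mul_div_cancel_left _ hm1]
    ext
    · simp
    · simp
  · rintro ⟨u, v⟩ hq
    simp only [mem_filter, mem_product, mem_range] at hq
    obtain ⟨⟨hu, hv⟩, huv, ⟨d, hd⟩, hl, hr⟩ := hq
    simp only
    rw [hd] at hl hr ⊢
    rw [Nat.mul_div_cancel_left _ hm1]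
    have hl' : i * d ≤ u := by
      have : m * (i * d) ≤ m * u := by nlinarith
      exact Nat.le_of_mul_le_mul_left this hm1
    have h6 : (i + m) * d = i * d + m * d := by ring
    ext
    · simp only; omega
    · simp only; omega
  · rintro ⟨a, d⟩ _
    rfl

/-- total pair sum -/
lemma total_form {k n s : ℕ} (hk : 3 ≤ k) (hdiv : ∀ m, 1 ≤ m → m < k → m ∣ 2 * s)
    (hn : k * ((4 * k + 2) * (2 * s)) ≤ n) :
    ∑ p ∈ apPairs k n, ∑ j ∈ range k, ∑ i ∈ range j,
      gf (4 * k * (2 * s)) (2 * s) (p.1 + i * p.2) * gf (4 * k * (2 * s)) (2 * s) (p.1 + j * p.2)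
      ≤ - (2 * (s : ℤ) * s) := by
  set g := gf (4 * k * (2 * s)) (2 * s) with hg
  have hswap : ∑ p ∈ apPairs k n, ∑ j ∈ range k, ∑ i ∈ range j,
      g (p.1 + i * p.2) * g (p.1 + j * p.2)
      = ∑ j ∈ range k, ∑ i ∈ range j, ∑ p ∈ apPairs k n,
        g (p.1 + i * p.2) * g (p.1 + j * p.2) := by
    rw [Finset.sum_comm]
    apply Finset.sum_congr rfl
    intro j _
    rw [Finset.sum_comm]
  rw [hswap]
  have hnonpos : ∀ j ∈ range k, ∀ i ∈ range j, ∑ p ∈ apPairs k n,
        g (p.1 + i * p.2) * g (p.1 + j * p.2) ≤ 0 := by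
    intro j hj i hi
    rw [mem_range] at hj hi
    rw [ap_sum_eq hi hj]
    exact form_nonpos hk hi hj (hdiv _ (by omega) (by omega)) hn
  have h2 : 2 ∈ range k := by rw [mem_range]; omega
  rw [← Finset.add_sum_erase _ _ h2]
  have hA : ∑ i ∈ range 2, ∑ p ∈ apPairs k n, g (p.1 + i * p.2) * g (p.1 + 2 * p.2)
      ≤ - (2 * (s : ℤ) * s) := by
    rw [Finset.sum_range_succ, Finset.sum_range_one]
    have e0 := hnonpos 2 h2 0 (by simp)
    have e1 : ∑ p ∈ apPairs k n, g (p.1 + 1 * p.2) * g (p.1 + 2 * p.2) ≤ - (2 * (s : ℤ) * s) := by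
      rw [ap_sum_eq (by norm_num) (by omega)]
      exact form_one_two hk hn
    linarith
  have hB : ∑ j ∈ (range k).erase 2, ∑ i ∈ range j, ∑ p ∈ apPairs k n,
      g (p.1 + i * p.2) * g (p.1 + j * p.2) ≤ 0 := by
    apply Finset.sum_nonpos
    intro j hj
    apply Finset.sum_nonpos
    intro i hi
    exact hnonpos j (Finset.mem_of_mem_erase hj) i hi
  linarith

/-- number of progressions -/
lemma card_apPairs_le {k n : ℕ} (hk : 2 ≤ k) :
    ((apPairs k n).card : ℝ) ≤ (n : ℝ) ^ 2 / (2 * ((k : ℝ) - 1)) := by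
  obtain ⟨K, rfl⟩ : ∃ K, k = K + 1 := ⟨k - 1, by omega⟩
  have hK : 1 ≤ K := by omega
  have hKr : (1 : ℝ) ≤ K := by exact_mod_cast hK
  have h1 : (apPairs (K + 1) n).card ≤ ∑ d ∈ range n, (n - K * (d + 1)) := by
    have : apPairs (K + 1) n ⊆ (range n).biUnion (fun d =>
        (range (n - K * (d + 1))).image (fun a => (a, d + 1))) := by
      rintro ⟨a, d⟩ hp
      rw [mem_apPairs hk] at hp
      obtain ⟨hd, hn⟩ := hp
      simp only [Nat.add_sub_cancel] at hd hn
      simp only [mem_biUnion, mem_range, mem_image, Prod.mk.injEq]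
      have h2 : d ≤ K * d := Nat.le_mul_of_pos_left _ hK
      refine ⟨d - 1, by omega, a, ?_, rfl, by omega⟩
      have : d - 1 + 1 = d := by omega
      rw [this]
      omega
    refine (Finset.card_le_card this).trans (Finset.card_biUnion_le.trans ?_)
    apply Finset.sum_le_sum
    intro d _
    refine Finset.card_image_le.trans ?_
    simp
  have h2 : ∀ D : ℕ, (∑ d ∈ range D, ((n - K * (d + 1) : ℕ) : ℝ))
      + ((n - K * D : ℕ) : ℝ) ^ 2 / (2 * K) ≤ (n : ℝ) ^ 2 / (2 * K) := by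
    intro D
    induction D with
    | zero => simp
    | succ D ih =>
      rw [Finset.sum_range_succ]
      refine le_trans ?_ ih
      have hKpos : (0 : ℝ) < 2 * K := by linarith
      have : ((n - K * (D + 1) : ℕ) : ℝ) + ((n - K * (D + 1) : ℕ) : ℝ) ^ 2 / (2 * K)
          ≤ ((n - K * D : ℕ) : ℝ) ^ 2 / (2 * K) := by
        rcases Nat.lt_or_ge n (K * (D + 1)) with h | h
        · have : n - K * (D + 1) = 0 := by omega
          rw [this]
          simp
          positivity
        · have e : ((n - K * D : ℕ) : ℝ) = ((n - K * (D + 1) : ℕ) : ℝ) + K := by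
            have h3 : K * (D + 1) = K * D + K := by ring
            have : n - K * D = (n - K * (D + 1)) + K := by omega
            rw [this]; push_cast; ring
          rw [e, le_div_iff₀ hKpos, add_mul, div_mul_cancel₀ _ hKpos.ne']
          nlinarith [sq_nonneg (K : ℝ)]
      linarith
  have h3 := h2 n
  have h4 : (0 : ℝ) ≤ ((n - K * n : ℕ) : ℝ) ^ 2 / (2 * K) := by positivity
  have h5 : ((apPairs (K + 1) n).card : ℝ) ≤ ∑ d ∈ range n, ((n - K * (d + 1) : ℕ) : ℝ) := by
    exact_mod_cast h1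
  push_cast
  have h6 : (K : ℝ) + 1 - 1 = K := by ring
  rw [h6]
  linarith

/-- many progressions -/
lemma card_apPairs_ge {k n : ℕ} (hk : 2 ≤ k) (hn : 12 * k ≤ n) :
    (n : ℝ) ^ 2 / (8 * ((k : ℝ) - 1)) ≤ ((apPairs k n).card : ℝ) := by
  obtain ⟨K, rfl⟩ : ∃ K, k = K + 1 := ⟨k - 1, by omega⟩
  have hK : 1 ≤ K := by omega
  have hKr : (1 : ℝ) ≤ K := by exact_mod_cast hK
  have h1 : (n / 2) * (n / (2 * K)) ≤ (apPairs (K + 1) n).card := by
    have : (range (n / 2)) ×ˢ ((range (n / (2 * K))).image (fun d => d + 1))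
        ⊆ apPairs (K + 1) n := by
      rintro ⟨a, d⟩ hp
      simp only [mem_product, mem_range, mem_image] at hp
      obtain ⟨ha, d', hd', rfl⟩ := hp
      rw [mem_apPairs hk]
      simp only [Nat.add_sub_cancel]
      refine ⟨by omega, ?_⟩
      have h2 : (2 * K) * (d' + 1) ≤ (2 * K) * (n / (2 * K)) := Nat.mul_le_mul_left _ (by omega)
      have h3 : (2 * K) * (n / (2 * K)) ≤ n := Nat.mul_div_le _ _
      have h4 : 2 * (K * (d' + 1)) ≤ n := by nlinarith
      omega
    have h2 := Finset.card_le_card this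
    rw [Finset.card_product, Finset.card_range, Finset.card_image_of_injective _
      (fun a b h => by simpa using h), Finset.card_range] at h2
    exact h2
  have h2 : ((n : ℝ) - 1) / 2 ≤ ((n / 2 : ℕ) : ℝ) := by
    have : n ≤ 2 * (n / 2) + 1 := by omega
    have : (n : ℝ) ≤ 2 * ((n / 2 : ℕ) : ℝ) + 1 := by exact_mod_cast this
    linarith
  have h3 : (n : ℝ) / (2 * K) - 1 ≤ ((n / (2 * K) : ℕ) : ℝ) := by
    have h4 : n < (2 * K) * (n / (2 * K) + 1) := by
      have := Nat.lt_div_mul_add (a := n) (b := 2 * K) (by omega)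
      nlinarith
    have h5 : (n : ℝ) < (2 * K) * (((n / (2 * K) : ℕ) : ℝ) + 1) := by exact_mod_cast h4
    have hpos : (0 : ℝ) < 2 * K := by linarith
    rw [sub_le_iff_le_add, div_le_iff₀ hpos]
    linarith
  have h6 : (((n / 2) * (n / (2 * K)) : ℕ) : ℝ) ≤ ((apPairs (K + 1) n).card : ℝ) := by
    exact_mod_cast h1
  push_cast at h6
  refine le_trans ?_ h6
  push_cast
  have e : (K : ℝ) + 1 - 1 = K := by ring
  rw [e]
  have hnr : 12 * ((K : ℝ) + 1) ≤ n := by exact_mod_cast hn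
  have hn0 : (0 : ℝ) ≤ n := by positivity
  have h7 : (0 : ℝ) ≤ (n : ℝ) / (2 * K) - 1 := by
    rw [sub_nonneg, le_div_iff₀ (by linarith)]
    linarith
  have h8 : ((n : ℝ) - 1) / 2 * ((n : ℝ) / (2 * K) - 1) ≤ ((n / 2 : ℕ) : ℝ) * ((n / (2 * K) : ℕ) : ℝ) := by
    apply mul_le_mul h2 h3 h7 (by positivity)
  refine le_trans ?_ h8
  have hK0 : (0 : ℝ) < K := by linarith
  have : (n : ℝ) ^ 2 / (8 * K) = (n : ℝ) / 2 * ((n : ℝ) / (4 * K)) := by
    field_simp
    ring
  rw [this]
  have h9 : (n : ℝ) / 2 * (2 / 3) ≤ ((n : ℝ) - 1) / 2 := by linarith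
  have h10 : (n : ℝ) / (4 * K) * (3 / 2) ≤ (n : ℝ) / (2 * K) - 1 := by
    rw [le_sub_iff_add_le]
    have : (n : ℝ) / (2 * K) - (n : ℝ) / (4 * K) * (3 / 2) = (n : ℝ) / (8 * K) := by
      field_simp
      ring
    have h11 : (1 : ℝ) ≤ (n : ℝ) / (8 * K) := by
      rw [le_div_iff₀ (by linarith)]
      linarith
    linarith
  calc (n : ℝ) / 2 * ((n : ℝ) / (4 * K))
      = ((n : ℝ) / 2 * (2 / 3)) * ((n : ℝ) / (4 * K) * (3 / 2)) := by ring
    _ ≤ ((n : ℝ) - 1) / 2 * ((n : ℝ) / (2 * K) - 1) :=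
        mul_le_mul h9 h10 (by positivity) (by linarith)

/-- progressions through a given point -/
lemma card_through_le (k n x : ℕ) :
    ((apPairs k n).filter (fun p => ∃ j ∈ range k, p.1 + j * p.2 = x)).card ≤ k * n := by
  have : (apPairs k n).filter (fun p => ∃ j ∈ range k, p.1 + j * p.2 = x)
      ⊆ ((range k) ×ˢ (range n)).image (fun q => (x - q.1 * q.2, q.2)) := by
    rintro ⟨a, d⟩ hp
    rw [mem_filter] at hp
    obtain ⟨hp, j, hj, hx⟩ := hp
    unfold apPairs at hp
    simp only [mem_filter, mem_product, mem_range] at hp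
    simp only [mem_image, mem_product]
    refine ⟨(j, d), ⟨hj, by rw [mem_range]; exact hp.1.2⟩, ?_⟩
    simp only at hx ⊢
    ext
    · simp only; omega
    · rfl
  refine (Finset.card_le_card this).trans (Finset.card_image_le.trans ?_)
  simp

end Pool.Agent.helper133_ap
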