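import Pool.Agent.helper133_ap.Core

set_option autoImplicit false

namespace Pool.Agent.helper133_ap

open Finset

/-- the test function -/
def gf (c t x : ℕ) : ℤ :=
  (if c ≤ x ∧ x < c + t then 1 else 0) - (if c + t ≤ x ∧ x < c + t + t then 1 else 0)
  - (if 2 * c ≤ x ∧ x < 2 * c + t then 1 else 0)
  + (if 2 * c + t ≤ x ∧ x < 2 * c + t + t then 1 else 0)

lemma sum_ind (n c t : ℕ) (h : c + t ≤ n) (f : ℕ → ℤ) :
    ∑ u ∈ range n, (if c ≤ u ∧ u < c + t then (1 : ℤ) else 0) * f u
      = ∑ x ∈ range t, f (c + x) := by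
  have h1 : ∑ u ∈ range n, (if c ≤ u ∧ u < c + t then (1 : ℤ) else 0) * f u
      = ∑ u ∈ (range n).filter (fun u => c ≤ u ∧ u < c + t), f u := by
    rw [Finset.sum_filter]
    apply Finset.sum_congr rfl
    intro u _
    split_ifs <;> simp
  have h2 : (range n).filter (fun u => c ≤ u ∧ u < c + t) = Ico c (c + t) := by
    ext u
    simp only [mem_filter, mem_range, mem_Ico]
    omega
  rw [h1, h2, Finset.sum_Ico_eq_sum_range]
  simp

lemma sum_gf (n c t : ℕ) (h : 2 * c + t + t ≤ n) (f : ℕ → ℤ) :
    ∑ u ∈ range n, gf c t u * f u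
      = ∑ x ∈ range t, (f (c + x) - f (c + t + x) - f (2 * c + x) + f (2 * c + t + x)) := by
  have h1 := sum_ind n c t (by omega) f
  have h2 := sum_ind n (c + t) t (by omega) f
  have h3 := sum_ind n (2 * c) t (by omega) f
  have h4 := sum_ind n (2 * c + t) t (by omega) f
  simp only [Finset.sum_add_distrib, Finset.sum_sub_distrib]
  rw [← h1, ← h2, ← h3, ← h4, ← Finset.sum_sub_distrib, ← Finset.sum_sub_distrib,
    ← Finset.sum_add_distrib]
  apply Finset.sum_congr rfl
  intro u _
  unfold gf
  ring

lemma dvd_iff {m a b x y : ℕ} (ha : m ∣ a) (hb : m ∣ b) (h : a + x < b + y) :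
    m ∣ ((b + y) - (a + x)) ↔ x % m = y % m := by
  rw [← Nat.modEq_iff_dvd' h.le]
  unfold Nat.ModEq
  obtain ⟨a', rfl⟩ := ha
  obtain ⟨b', rfl⟩ := hb
  simp [Nat.mul_add_mod]

instance (k i m n u v : ℕ) : Decidable (EP k i m n u v) := by
  unfold EP
  infer_instance

/-- indicator of the condition -/
def ep (k i m n u v : ℕ) : ℤ := if EP k i m n u v then 1 else 0

lemma ep_zero {k i m n u v : ℕ} (h : v ≤ u) : ep k i m n u v = 0 := by
  unfold ep
  rw [if_neg]
  intro h1
  exact absurd h1.1 (by omega)

lemma sym_sum (m t : ℕ) :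
    2 * ∑ x ∈ range t, ∑ y ∈ range t, (if x < y ∧ x % m = y % m then (1 : ℤ) else 0)
      ≤ ∑ x ∈ range t, ∑ y ∈ range t, (if x % m = y % m then (1 : ℤ) else 0) := by
  have h1 : ∑ x ∈ range t, ∑ y ∈ range t, (if x < y ∧ x % m = y % m then (1 : ℤ) else 0)
      = ∑ x ∈ range t, ∑ y ∈ range t, (if y < x ∧ x % m = y % m then (1 : ℤ) else 0) := by
    rw [Finset.sum_comm]
    apply Finset.sum_congr rfl
    intro x _
    apply Finset.sum_congr rfl
    intro y _
    congr 1
    apply propext
    constructor <;> rintro ⟨a, b⟩ <;> exact ⟨a, b.symm⟩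
  rw [two_mul]
  nth_rewrite 2 [h1]
  rw [← Finset.sum_add_distrib]
  apply Finset.sum_le_sum
  intro x _
  rw [← Finset.sum_add_distrib]
  apply Finset.sum_le_sum
  intro y _
  split_ifs with h1 h2 h3 h4 h5 <;> first | omega | simp

/-- the difference of the two surviving cross terms -/
def cross (i j c t x y : ℕ) : ℤ :=
  (if (j - i) ∣ ((2 * c + t + y) - (c + x)) ∧ i * (2 * c + t + y) ≤ j * (c + x) then 1 else 0)
  - (if (j - i) ∣ ((2 * c + y) - (c + x)) ∧ i * (2 * c + y) ≤ j * (c + x) then 1 else 0)

lemma form_le {k i j n t : ℕ} (hk : 3 ≤ k) (hij : i < j) (hj : j < k) (hm : (j - i) ∣ t)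
    (hn : k * ((4 * k + 2) * t) ≤ n) :
    ∑ u ∈ range n, ∑ v ∈ range n, gf (4 * k * t) t u * gf (4 * k * t) t v * ep k i (j - i) n u v
      ≤ ∑ x ∈ range t, ∑ y ∈ range t, cross i j (4 * k * t) t x y := by
  set c := 4 * k * t with hc
  set m := j - i with hmdef
  have hm1 : 1 ≤ m := by omega
  have hmc : m ∣ c := Dvd.dvd.mul_left hm _
  have hm2c : m ∣ 2 * c := Dvd.dvd.mul_left hmc _
  have hmct : m ∣ c + t := Dvd.dvd.add hmc hm
  have hm2ct : m ∣ 2 * c + t := Dvd.dvd.add hm2c hm
  have hnc : 2 * c + t + t ≤ n := by nlinarith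
  have hnA : c + 2 * t + (k - 1) * (2 * t) ≤ n := by
    obtain ⟨k', rfl⟩ : ∃ k', k = k' + 1 := ⟨k - 1, by omega⟩
    simp only [Nat.add_sub_cancel]
    nlinarith
  have hnB : 2 * c + 2 * t + (k - 1) * (2 * t) ≤ n := by
    obtain ⟨k', rfl⟩ : ∃ k', k = k' + 1 := ⟨k - 1, by omega⟩
    simp only [Nat.add_sub_cancel]
    nlinarith
  have h2t : 2 * t ≤ c := by nlinarith
  have step : ∑ u ∈ range n, ∑ v ∈ range n, gf c t u * gf c t v * ep k i m n u v
      = ∑ x ∈ range t, ∑ y ∈ range t,
        ((ep k i m n (c + x) (c + y) - ep k i m n (c + x) (c + t + y)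
          - ep k i m n (c + x) (2 * c + y) + ep k i m n (c + x) (2 * c + t + y))
        - (ep k i m n (c + t + x) (c + y) - ep k i m n (c + t + x) (c + t + y)
          - ep k i m n (c + t + x) (2 * c + y) + ep k i m n (c + t + x) (2 * c + t + y))
        - (ep k i m n (2 * c + x) (c + y) - ep k i m n (2 * c + x) (c + t + y)
          - ep k i m n (2 * c + x) (2 * c + y) + ep k i m n (2 * c + x) (2 * c + t + y))
        + (ep k i m n (2 * c + t + x) (c + y) - ep k i m n (2 * c + t + x) (c + t + y)
          - ep k i m n (2 * c + t + x) (2 * c + y)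
          + ep k i m n (2 * c + t + x) (2 * c + t + y))) := by
    have h1 : ∀ u, ∑ v ∈ range n, gf c t u * gf c t v * ep k i m n u v
        = gf c t u * ∑ v ∈ range n, gf c t v * ep k i m n u v := by
      intro u
      rw [Finset.mul_sum]
      apply Finset.sum_congr rfl
      intro v _
      ring
    simp_rw [h1]
    rw [sum_gf n c t hnc]
    simp_rw [sum_gf n c t hnc (fun v => ep k i m n _ v)]
    apply Finset.sum_congr rfl
    intro x _
    rw [← Finset.sum_sub_distrib, ← Finset.sum_sub_distrib, ← Finset.sum_add_distrib]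
  rw [step]
  have hsym := sym_sum m t
  have key : ∑ x ∈ range t, ∑ y ∈ range t,
        ((ep k i m n (c + x) (c + y) - ep k i m n (c + x) (c + t + y)
          - ep k i m n (c + x) (2 * c + y) + ep k i m n (c + x) (2 * c + t + y))
        - (ep k i m n (c + t + x) (c + y) - ep k i m n (c + t + x) (c + t + y)
          - ep k i m n (c + t + x) (2 * c + y) + ep k i m n (c + t + x) (2 * c + t + y))
        - (ep k i m n (2 * c + x) (c + y) - ep k i m n (2 * c + x) (c + t + y)
          - ep k i m n (2 * c + x) (2 * c + y) + ep k i m n (2 * c + x) (2 * c + t + y))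
        + (ep k i m n (2 * c + t + x) (c + y) - ep k i m n (2 * c + t + x) (c + t + y)
          - ep k i m n (2 * c + t + x) (2 * c + y)
          + ep k i m n (2 * c + t + x) (2 * c + t + y)))
      = ∑ x ∈ range t, ∑ y ∈ range t,
        (4 * (if x < y ∧ x % m = y % m then (1 : ℤ) else 0)
          - 2 * (if x % m = y % m then (1 : ℤ) else 0) + cross i j c t x y) := by
    apply Finset.sum_congr rfl
    intro x hx
    apply Finset.sum_congr rfl
    intro y hy
    rw [mem_range] at hx hy
    have a1 : ep k i m n (c + x) (c + y) = if x < y ∧ x % m = y % m then 1 else 0 := by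
      by_cases hxy : x < y
      · unfold ep
        refine if_congr ((EP_AA hm1 (by omega) (le_of_eq hc.symm) hnA (by omega) (by omega)
          (by omega) (by omega) (by omega)).trans ((dvd_iff hmc hmc (by omega)).trans ?_)) rfl rfl
        simp [hxy]
      · rw [ep_zero (by omega)]
        simp [hxy]
    have a2 : ep k i m n (c + x) (c + t + y) = if x % m = y % m then 1 else 0 := by
      unfold ep
      exact if_congr ((EP_AA hm1 (by omega) (le_of_eq hc.symm) hnA (by omega) (by omega)
        (by omega) (by omega) (by omega)).trans (dvd_iff hmc hmct (by omega))) rfl rfl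
    have a3 : ep k i m n (c + t + x) (c + y) = 0 := ep_zero (by omega)
    have a4 : ep k i m n (c + t + x) (c + t + y) = if x < y ∧ x % m = y % m then 1 else 0 := by
      by_cases hxy : x < y
      · unfold ep
        refine if_congr ((EP_AA hm1 (by omega) (le_of_eq hc.symm) hnA (by omega) (by omega)
          (by omega) (by omega) (by omega)).trans ((dvd_iff hmct hmct (by omega)).trans ?_)) rfl rfl
        simp [hxy]
      · rw [ep_zero (by omega)]
        simp [hxy]
    have b1 : ep k i m n (2 * c + x) (2 * c + y) = if x < y ∧ x % m = y % m then 1 else 0 := by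
      by_cases hxy : x < y
      · unfold ep
        refine if_congr ((EP_AA (c := 2 * c) hm1 (by omega) (by omega) hnB (by omega) (by omega)
          (by omega) (by omega) (by omega)).trans ((dvd_iff hm2c hm2c (by omega)).trans ?_)) rfl rfl
        simp [hxy]
      · rw [ep_zero (by omega)]
        simp [hxy]
    have b2 : ep k i m n (2 * c + x) (2 * c + t + y) = if x % m = y % m then 1 else 0 := by
      unfold ep
      exact if_congr ((EP_AA (c := 2 * c) hm1 (by omega) (by omega) hnB (by omega) (by omega)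
        (by omega) (by omega) (by omega)).trans (dvd_iff hm2c hm2ct (by omega))) rfl rfl
    have b3 : ep k i m n (2 * c + t + x) (2 * c + y) = 0 := ep_zero (by omega)
    have b4 : ep k i m n (2 * c + t + x) (2 * c + t + y)
        = if x < y ∧ x % m = y % m then 1 else 0 := by
      by_cases hxy : x < y
      · unfold ep
        refine if_congr ((EP_AA (c := 2 * c) hm1 (by omega) (by omega) hnB (by omega) (by omega)
          (by omega) (by omega) (by omega)).trans ((dvd_iff hm2ct hm2ct (by omega)).trans ?_)) rfl rfl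
        simp [hxy]
      · rw [ep_zero (by omega)]
        simp [hxy]
    have z1 : ep k i m n (2 * c + x) (c + y) = 0 := ep_zero (by omega)
    have z2 : ep k i m n (2 * c + x) (c + t + y) = 0 := ep_zero (by omega)
    have z3 : ep k i m n (2 * c + t + x) (c + y) = 0 := ep_zero (by omega)
    have z4 : ep k i m n (2 * c + t + x) (c + t + y) = 0 := ep_zero (by omega)
    have d1 : ep k i m n (c + t + x) (2 * c + y) = ep k i m n (c + t + x) (2 * c + t + y) := by
      have := @AB_shift k i j t (c + t + x) (2 * c + y) hij hj (by omega) (by omega) (by omega)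
        (by omega)
      have e : 2 * c + y + t = 2 * c + t + y := by ring
      rw [e] at this
      unfold ep
      apply if_congr _ rfl rfl
      rw [EP_AB hij hj hn (by omega) (by omega) (by omega) (by omega),
        EP_AB hij hj hn (by omega) (by omega) (by omega) (by omega),
        dvd_iff hmct hm2c (by omega), dvd_iff hmct hm2ct (by omega), this]
    have d2 : ep k i m n (c + x) (2 * c + t + y) - ep k i m n (c + x) (2 * c + y)
        = cross i j c t x y := by
      unfold ep cross
      congr 1
      · exact if_congr (EP_AB hij hj hn (by omega) (by omega) (by omega) (by omega)) rfl rfl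
      · exact if_congr (EP_AB hij hj hn (by omega) (by omega) (by omega) (by omega)) rfl rfl
    rw [a1, a2, a3, a4, b1, b2, b3, b4, z1, z2, z3, z4, d1, ← d2]
    ring
  rw [key]
  simp only [Finset.sum_add_distrib, Finset.sum_sub_distrib, ← Finset.mul_sum]
  linarith

lemma cross_nonpos {i j c t x y : ℕ} (hm : (j - i) ∣ t) (hc : (j - i) ∣ c) (ht : x < c) :
    cross i j c t x y ≤ 0 := by
  unfold cross
  have h2c : (j - i) ∣ 2 * c := Dvd.dvd.mul_left hc _
  have h2ct : (j - i) ∣ 2 * c + t := Dvd.dvd.add h2c hm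
  simp only [dvd_iff hc h2ct (show c + x < 2 * c + t + y by omega),
    dvd_iff hc h2c (show c + x < 2 * c + y by omega)]
  split_ifs with h1 h2 h2
  · simp
  · exfalso
    apply h2
    refine ⟨h1.1, ?_⟩
    have : i * (2 * c + y) ≤ i * (2 * c + t + y) := Nat.mul_le_mul_left _ (by omega)
    omega
  · simp
  · simp

/-- every pair form is nonpositive -/
lemma form_nonpos {k i j n t : ℕ} (hk : 3 ≤ k) (hij : i < j) (hj : j < k) (hm : (j - i) ∣ t)
    (hn : k * ((4 * k + 2) * t) ≤ n) :
    ∑ u ∈ range n, ∑ v ∈ range n, gf (4 * k * t) t u * gf (4 * k * t) t v * ep k i (j - i) n u v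
      ≤ 0 := by
  refine (form_le hk hij hj hm hn).trans ?_
  apply Finset.sum_nonpos
  intro x hx
  apply Finset.sum_nonpos
  intro y _
  rw [mem_range] at hx
  apply cross_nonpos hm (Dvd.dvd.mul_left hm _)
  nlinarith

/-- the pair form of the second and third term is very negative -/
lemma form_one_two {k n s : ℕ} (hk : 3 ≤ k) (hn : k * ((4 * k + 2) * (2 * s)) ≤ n) :
    ∑ u ∈ range n, ∑ v ∈ range n,
      gf (4 * k * (2 * s)) (2 * s) u * gf (4 * k * (2 * s)) (2 * s) v * ep k 1 1 n u v
      ≤ - (2 * (s : ℤ) * s) := by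
  have h := @form_le k 1 2 n (2 * s) hk (by norm_num) (by omega) (by norm_num) hn
  simp only [show (2 : ℕ) - 1 = 1 from rfl] at h
  refine h.trans ?_
  rw [Finset.sum_comm]
  have : ∀ y ∈ range (2 * s), ∑ x ∈ range (2 * s), cross 1 2 (4 * k * (2 * s)) (2 * s) x y
      = - (s : ℤ) := by
    intro y hy
    rw [mem_range] at hy
    have h1 : ∀ x ∈ range (2 * s), cross 1 2 (4 * k * (2 * s)) (2 * s) x y
        = - (if y ≤ 2 * x ∧ 2 * x < 2 * s + y then (1 : ℤ) else 0) := by
      intro x _
      unfold cross
      simp only [show (2 : ℕ) - 1 = 1 from rfl, one_dvd, true_and, one_mul]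
      split_ifs <;> first | omega | simp
    rw [Finset.sum_congr rfl h1, Finset.sum_neg_distrib, Finset.sum_boole]
    have h2 : (range (2 * s)).filter (fun x => y ≤ 2 * x ∧ 2 * x < 2 * s + y)
        = Ico ((y + 1) / 2) ((y + 1) / 2 + s) := by
      ext x
      simp only [mem_filter, mem_range, mem_Ico]
      omega
    rw [h2]
    simp
  rw [Finset.sum_congr rfl this]
  simp

end Pool.Agent.helper133_ap
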