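import Pool.Agent.helper133_ap.Prob

set_option autoImplicit false

namespace Pool.Agent.helper133_ap

open Finset

/-- the perturbed colour probabilities -/
noncomputable def pr (r c t : ℕ) (y : ℝ) (x : ℕ) (col : Fin r) : ℝ :=
  if col.val = 0 then (1 + y * (gf c t x : ℝ)) / r
  else if col.val = 1 then (1 - y * (gf c t x : ℝ)) / r
  else 1 / r

lemma gf_abs (c t x : ℕ) (h : 2 * t ≤ c) : |(gf c t x : ℝ)| ≤ 1 := by
  have h1 : gf c t x = 1 ∨ gf c t x = -1 ∨ gf c t x = 0 := by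
    unfold gf
    split_ifs <;> first | omega | simp
  rcases h1 with h1 | h1 | h1 <;> rw [h1] <;> simp

lemma sum_fin_split {r : ℕ} (hr : 2 ≤ r) (a b d : ℝ) :
    ∑ c : Fin r, (if c.val = 0 then a else if c.val = 1 then b else d)
      = a + b + ((r : ℝ) - 2) * d := by
  obtain ⟨s, rfl⟩ : ∃ s, r = s + 2 := ⟨r - 2, by omega⟩
  rw [Fin.sum_univ_succ, Fin.sum_univ_succ]
  simp only [Fin.val_zero, if_true, Fin.val_succ]
  have : ∀ i : Fin s, (if (i : ℕ) + 1 + 1 = 0 then a else if (i : ℕ) + 1 + 1 = 1 then b else d)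
      = d := by
    intro i
    rw [if_neg (by omega), if_neg (by omega)]
  simp only [this]
  simp
  ring

lemma pr_sum {r : ℕ} (hr : 2 ≤ r) (c t : ℕ) (y : ℝ) (x : ℕ) :
    ∑ col : Fin r, pr r c t y x col = 1 := by
  unfold pr
  rw [sum_fin_split hr]
  have : (r : ℝ) ≠ 0 := by positivity
  field_simp
  ring

lemma pr_pos {r : ℕ} (hr : 2 ≤ r) (c t : ℕ) (h : 2 * t ≤ c) (y : ℝ) (hy0 : 0 ≤ y) (hy : y < 1)
    (x : ℕ) (col : Fin r) : 0 < pr r c t y x col := by
  have hr' : (0 : ℝ) < r := by positivity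
  have hg := gf_abs c t x h
  rw [abs_le] at hg
  unfold pr
  split_ifs
  · apply div_pos _ hr'
    nlinarith
  · apply div_pos _ hr'
    nlinarith
  · positivity

lemma prod_pr {r k : ℕ} (hr : 2 ≤ r) (c t : ℕ) (y : ℝ) (z : ℕ → ℕ) :
    ∑ col : Fin r, ∏ j ∈ range k, pr r c t y (z j) col
      = (∏ j ∈ range k, (1 + y * (gf c t (z j) : ℝ)) + ∏ j ∈ range k, (1 + -(y * (gf c t (z j) : ℝ)))
        + ((r : ℝ) - 2)) / (r : ℝ) ^ k := by
  have h1 : ∀ col : Fin r, ∏ j ∈ range k, pr r c t y (z j) col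
      = if col.val = 0 then (∏ j ∈ range k, (1 + y * (gf c t (z j) : ℝ))) / (r : ℝ) ^ k
        else if col.val = 1 then (∏ j ∈ range k, (1 + -(y * (gf c t (z j) : ℝ)))) / (r : ℝ) ^ k
        else 1 / (r : ℝ) ^ k := by
    intro col
    unfold pr
    split_ifs
    · rw [Finset.prod_div_distrib]; simp
    · rw [Finset.prod_div_distrib]; simp [sub_eq_add_neg]
    · rw [Finset.prod_div_distrib]; simp
  simp_rw [h1]
  rw [sum_fin_split hr]
  ring

/-- discrete intermediate value -/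
lemma discrete_ivt (f : ℕ → ℝ) (n : ℕ) (T K : ℝ) (hK : 0 ≤ K) (h0 : f 0 ≤ T) (hn : T ≤ f n)
    (hstep : ∀ s, |f (s + 1) - f s| ≤ K) : ∃ s, |f s - T| ≤ K := by
  classical
  have hex : ∃ s, T ≤ f s := ⟨n, hn⟩
  rcases Nat.eq_zero_or_pos (Nat.find hex) with h | h
  · refine ⟨0, ?_⟩
    have := Nat.find_spec hex
    rw [h] at this
    have : f 0 = T := le_antisymm h0 this
    rw [this]; simpa using hK
  · refine ⟨Nat.find hex, ?_⟩
    have h1 := Nat.find_spec hex
    have h2 := Nat.find_min hex (m := Nat.find hex - 1) (by omega)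
    push Not at h2
    have h3 := hstep (Nat.find hex - 1)
    have h4 : Nat.find hex - 1 + 1 = Nat.find hex := by omega
    rw [h4, abs_le] at h3
    rw [abs_le]
    constructor
    · linarith
    · linarith [h3.2]

lemma mono_step {r k n : ℕ} (ψ χ : ℕ → Fin r) (s : ℕ) (h : ∀ x, x ≠ s → ψ x = χ x) (hk : 1 ≤ k) :
    ((mono k n ψ).card : ℝ) ≤ (mono k n χ).card + (k : ℝ) * n := by
  classical
  have h1 : mono k n ψ ⊆ mono k n χ ∪
      (apPairs k n).filter (fun p => ∃ j ∈ range k, p.1 + j * p.2 = s) := by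
    intro q hq
    unfold mono at hq ⊢
    rw [mem_filter] at hq
    rw [mem_union, mem_filter, mem_filter]
    by_cases hs : ∃ j ∈ range k, q.1 + j * q.2 = s
    · right; exact ⟨hq.1, hs⟩
    · left
      push Not at hs
      refine ⟨hq.1, fun j hj => ?_⟩
      have h0 := hs 0 (by rw [mem_range]; omega)
      rw [← h _ (hs j hj), ← h q.1 (by simpa using h0)]
      exact hq.2 j hj
  have h2 := (Finset.card_le_card h1).trans (Finset.card_union_le _ _)
  have h3 := card_through_le k n s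
  have h4 : (mono k n ψ).card ≤ (mono k n χ).card + k * n := by omega
  exact_mod_cast h4

/-- interpolation: any count between a low one and the full one is attained up to `k n` -/
lemma exists_close {r k n : ℕ} (hr : 0 < r) (hk : 2 ≤ k) (ψ : ℕ → Fin r) (T : ℝ)
    (hlow : ((mono k n ψ).card : ℝ) ≤ T) (hhigh : T ≤ ((apPairs k n).card : ℝ)) :
    ∃ χ : ℕ → Fin r, |((mono k n χ).card : ℝ) - T| ≤ (k : ℝ) * n := by
  classical
  let χ : ℕ → ℕ → Fin r := fun s x => if x < s then ⟨0, hr⟩ else ψ x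
  have h0 : χ 0 = ψ := by
    funext x; simp [χ]
  have hn : mono k n (χ n) = apPairs k n := by
    unfold mono
    apply Finset.filter_true_of_mem
    intro q hq j hj
    rw [mem_apPairs hk] at hq
    rw [mem_range] at hj
    have : j * q.2 ≤ (k - 1) * q.2 := Nat.mul_le_mul_right _ (by omega)
    simp only [χ]
    rw [if_pos (by omega), if_pos (by omega)]
  obtain ⟨s, hs⟩ := discrete_ivt (fun s => ((mono k n (χ s)).card : ℝ)) n T ((k : ℝ) * n)
    (by positivity) (by simp only [h0]; exact hlow) (by simp only [hn]; exact hhigh) (by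
      intro s
      have hne : ∀ x, x ≠ s → χ (s + 1) x = χ s x := by
        intro x hx
        simp only [χ]
        by_cases h : x < s
        · rw [if_pos (by omega), if_pos h]
        · rw [if_neg (by omega), if_neg h]
      have h1 := mono_step (n := n) (χ (s + 1)) (χ s) s hne (by omega : 1 ≤ k)
      have h2 := mono_step (n := n) (χ s) (χ (s + 1)) s (fun x hx => (hne x hx).symm)
        (by omega : 1 ≤ k)
      rw [abs_le]
      constructor <;> linarith)
  exact ⟨χ s, hs⟩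

/-- the main bound on the expectation -/
lemma expectation_bound {k r n s : ℕ} (hk : 3 ≤ k) (hr : 2 ≤ r)
    (hdiv : ∀ m, 1 ≤ m → m < k → m ∣ 2 * s)
    (hn : k * ((4 * k + 2) * (2 * s)) ≤ n) (C y : ℝ) (hy0 : 0 ≤ y) (hy1 : y ≤ 1)
    (hC : ∀ (x : ℕ → ℝ) (y : ℝ), 0 ≤ y → y ≤ 1 → (∀ j, |x j| ≤ y) →
      |∏ j ∈ range k, (1 + x j) - 1 - ∑ j ∈ range k, x j
      - ∑ j ∈ range k, ∑ i ∈ range j, x i * x j| ≤ C * y ^ 3) :
    ∑ q ∈ apPairs k n, ∑ c : Fin r,
      ∏ j ∈ range k, pr r (4 * k * (2 * s)) (2 * s) y (q.1 + j * q.2) c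
      ≤ (((r : ℝ) + 2 * C * y ^ 3) * ((apPairs k n).card : ℝ) - 4 * y ^ 2 * ((s : ℝ) * s))
        / (r : ℝ) ^ k := by
  have h2t : 2 * (2 * s) ≤ 4 * k * (2 * s) := by nlinarith
  have hrk : (0 : ℝ) < (r : ℝ) ^ k := by positivity
  have h1 : ∀ q ∈ apPairs k n, ∑ c : Fin r,
      ∏ j ∈ range k, pr r (4 * k * (2 * s)) (2 * s) y (q.1 + j * q.2) c
      ≤ ((r : ℝ) + 2 * C * y ^ 3 + 2 * y ^ 2 * ((∑ j ∈ range k, ∑ i ∈ range j,
      gf (4 * k * (2 * s)) (2 * s) (q.1 + i * q.2) * gf (4 * k * (2 * s)) (2 * s) (q.1 + j * q.2)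
        : ℤ) : ℝ)) / (r : ℝ) ^ k := by
    intro q _
    rw [prod_pr hr _ _ y (fun j => q.1 + j * q.2)]
    apply div_le_div_of_nonneg_right _ hrk.le
    set g : ℕ → ℝ := fun j => (gf (4 * k * (2 * s)) (2 * s) (q.1 + j * q.2) : ℝ) with hg
    have hgabs : ∀ j, |g j| ≤ 1 := fun j => gf_abs _ _ _ h2t
    have hx1 : ∀ j, |y * g j| ≤ y := by
      intro j
      rw [abs_mul, abs_of_nonneg hy0]
      nlinarith [hgabs j]
    have hx2 : ∀ j, |-(y * g j)| ≤ y := by
      intro j; rw [abs_neg]; exact hx1 j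
    have e1 := hC (fun j => y * g j) y hy0 hy1 hx1
    have e2 := hC (fun j => -(y * g j)) y hy0 hy1 hx2
    rw [abs_le] at e1 e2
    have e3 : ∑ j ∈ range k, ∑ i ∈ range j, (y * g i) * (y * g j)
        = y ^ 2 * ∑ j ∈ range k, ∑ i ∈ range j, g i * g j := by
      rw [Finset.mul_sum]
      apply Finset.sum_congr rfl
      intro j _
      rw [Finset.mul_sum]
      apply Finset.sum_congr rfl
      intro i _
      ring
    have e4 : ∑ j ∈ range k, ∑ i ∈ range j, (-(y * g i)) * (-(y * g j))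
        = y ^ 2 * ∑ j ∈ range k, ∑ i ∈ range j, g i * g j := by
      rw [← e3]
      apply Finset.sum_congr rfl
      intro j _
      apply Finset.sum_congr rfl
      intro i _
      ring
    have e5 : ∑ j ∈ range k, -(y * g j) = - ∑ j ∈ range k, y * g j := by
      rw [Finset.sum_neg_distrib]
    beta_reduce at e1 e2
    rw [e3] at e1
    rw [e4, e5] at e2
    push_cast
    have : ∑ j ∈ range k, ∑ i ∈ range j, (gf (4 * k * (2 * s)) (2 * s) (q.1 + i * q.2) : ℝ)
        * (gf (4 * k * (2 * s)) (2 * s) (q.1 + j * q.2) : ℝ)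
        = ∑ j ∈ range k, ∑ i ∈ range j, g i * g j := rfl
    rw [this]
    linarith [e1.2, e2.2]
  refine (Finset.sum_le_sum h1).trans ?_
  rw [← Finset.sum_div]
  apply div_le_div_of_nonneg_right _ hrk.le
  rw [Finset.sum_add_distrib, ← Finset.mul_sum, Finset.sum_const, nsmul_eq_mul]
  have h2 := total_form hk hdiv hn
  have h3 : ((∑ p ∈ apPairs k n, ∑ j ∈ range k, ∑ i ∈ range j,
      gf (4 * k * (2 * s)) (2 * s) (p.1 + i * p.2) * gf (4 * k * (2 * s)) (2 * s) (p.1 + j * p.2)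
      : ℤ) : ℝ) ≤ - (2 * (s : ℝ) * s) := by exact_mod_cast h2
  rw [Int.cast_sum] at h3
  nlinarith [sq_nonneg y]

/-- Main statement in terms of pairs. -/
theorem main_pairs {k r : ℕ} (hk : 3 ≤ k) (hr : 2 ≤ r) :
    ∃ δ : ℝ, δ < 1 / (2 * ((k : ℝ) - 1) * (r : ℝ) ^ (k - 1)) ∧ ∃ K : ℝ, ∀ n : ℕ,
      ∃ ψ : ℕ → Fin r, |((mono k n ψ).card : ℝ) - δ * (n : ℝ) ^ 2| ≤ K * n := by
  obtain ⟨C, hC0, hC⟩ := prod_expand k
  set L : ℕ := k * (4 * k + 2) with hL
  have hLpos : 0 < L := by positivity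
  have hLr : (1 : ℝ) ≤ L := by exact_mod_cast hLpos
  set F : ℕ := (k - 1).factorial with hF
  have hFpos : 0 < F := Nat.factorial_pos _
  have hkr : (3 : ℝ) ≤ k := by exact_mod_cast hk
  have hrr : (2 : ℝ) ≤ r := by exact_mod_cast hr
  set y : ℝ := 1 / (16 * (C + 1) * (L : ℝ) ^ 2) with hy
  have hden : (16 : ℝ) ≤ 16 * (C + 1) * (L : ℝ) ^ 2 := by
    have : (1 : ℝ) ≤ (L : ℝ) ^ 2 := one_le_pow₀ hLr
    nlinarith
  have hdenpos : (0 : ℝ) < 16 * (C + 1) * (L : ℝ) ^ 2 := by linarith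
  have hy0 : 0 < y := by rw [hy]; positivity
  have hy1 : y ≤ 1 / 16 := by
    rw [hy]
    exact one_div_le_one_div_of_le (by norm_num) hden
  have hCy : 2 * C * y ≤ 1 / (8 * (L : ℝ) ^ 2) := by
    rw [hy, mul_one_div, div_le_div_iff₀ hdenpos (by positivity)]
    nlinarith [sq_nonneg (L : ℝ)]
  set R : ℝ := 1 / (2 * ((k : ℝ) - 1) * (r : ℝ) ^ (k - 1)) with hR
  set η : ℝ := y ^ 2 / (8 * (L : ℝ) ^ 2) / (r : ℝ) ^ k with hη
  have hrk : (0 : ℝ) < (r : ℝ) ^ k := by positivity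
  have hrk1 : (4 : ℝ) ≤ (r : ℝ) ^ (k - 1) := by
    calc (4 : ℝ) = 2 ^ 2 := by norm_num
      _ ≤ (r : ℝ) ^ 2 := by nlinarith
      _ ≤ (r : ℝ) ^ (k - 1) := pow_le_pow_right₀ (by linarith) (by omega)
  have hηpos : 0 < η := by rw [hη]; positivity
  have hRle : R ≤ 1 / (8 * ((k : ℝ) - 1)) := by
    rw [hR]
    apply one_div_le_one_div_of_le (by linarith)
    nlinarith
  have hR1 : R ≤ 1 := by
    refine hRle.trans ?_
    rw [div_le_one (by linarith)]
    linarith
  have hR0 : 0 < R := by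
    rw [hR]
    apply one_div_pos.mpr
    apply mul_pos (by linarith) (by linarith)
  have hη1 : η ≤ 1 := by
    rw [hη]
    have h1 : y ^ 2 ≤ 1 := by nlinarith
    have h2 : y ^ 2 / (8 * (L : ℝ) ^ 2) ≤ 1 := by
      rw [div_le_one (by positivity)]
      have : (1 : ℝ) ≤ (L : ℝ) ^ 2 := one_le_pow₀ hLr
      linarith
    have h3 : (1 : ℝ) ≤ (r : ℝ) ^ k := one_le_pow₀ (by linarith)
    rw [div_le_one hrk]
    linarith
  refine ⟨R - η, by linarith, ?_⟩
  set n0 : ℕ := 12 * k + 4 * L * F with hn0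
  refine ⟨(k : ℝ) + 2 * n0, fun n => ?_⟩
  have hcardle := card_apPairs_le (k := k) (n := n) (by omega)
  have hnnn : (0 : ℝ) ≤ (n : ℝ) := by positivity
  rcases Nat.lt_or_ge n n0 with hsmall | hlarge
  · -- small n : any colouring
    refine ⟨fun _ => ⟨0, by omega⟩, ?_⟩
    have h1 : ((mono k n (fun _ => (⟨0, by omega⟩ : Fin r))).card : ℝ) ≤ (n : ℝ) ^ 2 := by
      have h2 : ((mono k n (fun _ => (⟨0, by omega⟩ : Fin r))).card : ℝ)
          ≤ ((apPairs k n).card : ℝ) := by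
        exact_mod_cast Finset.card_le_card (Finset.filter_subset _ _)
      refine h2.trans (hcardle.trans ?_)
      rw [div_le_iff₀ (by linarith)]
      nlinarith [sq_nonneg (n : ℝ)]
    have h0 : (0 : ℝ) ≤ ((mono k n (fun _ => (⟨0, by omega⟩ : Fin r))).card : ℝ) := by positivity
    have hnn : (n : ℝ) ≤ n0 := by exact_mod_cast hsmall.le
    have hn2 : (n : ℝ) ^ 2 ≤ n0 * n := by nlinarith
    have hk0 : (0 : ℝ) ≤ k * n := by positivity
    rw [abs_le]
    constructor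
    · nlinarith
    · nlinarith
  · -- large n
    set s : ℕ := F * (n / (2 * L * F)) with hs
    have hLF : 0 < 2 * L * F := by positivity
    have hdiv : ∀ m, 1 ≤ m → m < k → m ∣ 2 * s := by
      intro m h1 h2
      apply Dvd.dvd.mul_left
      apply Dvd.dvd.mul_right
      exact Nat.dvd_factorial h1 (by omega)
    have hsn : k * ((4 * k + 2) * (2 * s)) ≤ n := by
      have : k * ((4 * k + 2) * (2 * s)) = (2 * L * F) * (n / (2 * L * F)) := by
        rw [hs, hL]; ring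
      rw [this]
      exact Nat.mul_div_le _ _
    have hslow : (n : ℝ) / (4 * L) ≤ s := by
      have h1 : n < (2 * L * F) * (n / (2 * L * F) + 1) := by
        have := Nat.lt_div_mul_add (a := n) hLF
        nlinarith
      have h2 : (n : ℝ) < 2 * L * s + 2 * L * F := by
        have : (2 * L * F) * (n / (2 * L * F) + 1) = 2 * L * s + 2 * L * F := by
          rw [hs]; ring
        rw [this] at h1
        exact_mod_cast h1
      have h3 : (4 * L * F : ℝ) ≤ n := by
        have : 4 * L * F ≤ n := by omega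
        exact_mod_cast this
      rw [div_le_iff₀ (by linarith)]
      nlinarith
    obtain ⟨ψ, hψ⟩ := exists_low (n := n) (by omega : 0 < r) (by omega : 2 ≤ k)
      (pr r (4 * k * (2 * s)) (2 * s) y)
      (fun x c => pr_pos hr _ _ (by nlinarith) y hy0.le (by linarith) x c)
      (fun x => pr_sum hr _ _ y x)
    have hexp := expectation_bound hk hr hdiv hsn C y hy0.le (by linarith)
      (fun x y h1 h2 h3 => (hC x y h1 h2 h3).2.2)
    have hbound : ((mono k n ψ).card : ℝ) ≤ (R - η) * (n : ℝ) ^ 2 := by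
      refine (hψ.trans hexp).trans ?_
      rw [div_le_iff₀ hrk]
      have hs2 : (n : ℝ) ^ 2 / (16 * (L : ℝ) ^ 2) ≤ (s : ℝ) * s := by
        have h0 : 0 ≤ (n : ℝ) / (4 * L) := by positivity
        have := mul_le_mul hslow hslow h0 (h0.trans hslow)
        calc (n : ℝ) ^ 2 / (16 * (L : ℝ) ^ 2) = (n : ℝ) / (4 * L) * ((n : ℝ) / (4 * L)) := by
              field_simp
              ring
          _ ≤ _ := this
      set N : ℝ := ((apPairs k n).card : ℝ) with hN
      have hNn : N ≤ (n : ℝ) ^ 2 := by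
        refine hcardle.trans ?_
        rw [div_le_iff₀ (by linarith)]
        nlinarith [sq_nonneg (n : ℝ)]
      have hN0 : 0 ≤ N := by positivity
      have e1 : (r : ℝ) * N ≤ R * (n : ℝ) ^ 2 * (r : ℝ) ^ k := by
        have e2 : R * (n : ℝ) ^ 2 * (r : ℝ) ^ k = (r : ℝ) * ((n : ℝ) ^ 2 / (2 * ((k : ℝ) - 1))) := by
          have e3 : (r : ℝ) ^ k = (r : ℝ) ^ (k - 1) * r := by
            rw [← pow_succ]; congr 1; omega
          rw [e3, hR]
          have : (k : ℝ) - 1 ≠ 0 := by linarith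
          have h4 : (r : ℝ) ^ (k - 1) ≠ 0 := by positivity
          field_simp
        rw [e2]
        exact mul_le_mul_of_nonneg_left hcardle (by linarith)
      have e4 : η * (n : ℝ) ^ 2 * (r : ℝ) ^ k = y ^ 2 / (8 * (L : ℝ) ^ 2) * (n : ℝ) ^ 2 := by
        rw [hη]
        field_simp
      have e5 : 2 * C * y ^ 3 * N ≤ y ^ 2 * (1 / (8 * (L : ℝ) ^ 2)) * (n : ℝ) ^ 2 := by
        have a1 : 2 * C * y ^ 3 * N = y ^ 2 * (2 * C * y) * N := by ring
        rw [a1]
        apply mul_le_mul _ hNn hN0 (by positivity)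
        exact mul_le_mul_of_nonneg_left hCy (sq_nonneg y)
      have e6 : 4 * y ^ 2 * ((n : ℝ) ^ 2 / (16 * (L : ℝ) ^ 2)) ≤ 4 * y ^ 2 * ((s : ℝ) * s) :=
        mul_le_mul_of_nonneg_left hs2 (by positivity)
      have e7 : 4 * y ^ 2 * ((n : ℝ) ^ 2 / (16 * (L : ℝ) ^ 2))
          = 2 * (y ^ 2 * (1 / (8 * (L : ℝ) ^ 2)) * (n : ℝ) ^ 2) := by
        field_simp
        ring
      have e8 : y ^ 2 / (8 * (L : ℝ) ^ 2) * (n : ℝ) ^ 2
          = y ^ 2 * (1 / (8 * (L : ℝ) ^ 2)) * (n : ℝ) ^ 2 := by ring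
      nlinarith
    have hhigh : (R - η) * (n : ℝ) ^ 2 ≤ ((apPairs k n).card : ℝ) := by
      refine le_trans ?_ (card_apPairs_ge (by omega) (by omega))
      have : (R - η) * (n : ℝ) ^ 2 ≤ 1 / (8 * ((k : ℝ) - 1)) * (n : ℝ) ^ 2 :=
        mul_le_mul_of_nonneg_right (by linarith) (sq_nonneg _)
      refine this.trans (le_of_eq ?_)
      ring
    obtain ⟨χ, hχ⟩ := exists_close (by omega : 0 < r) (by omega : 2 ≤ k) ψ _ hbound hhigh
    refine ⟨χ, hχ.trans ?_⟩
    have : (0 : ℝ) ≤ 2 * n0 * n := by positivity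
    nlinarith

end Pool.Agent.helper133_ap
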