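import Pool.Agent.helper133_ap.Count

set_option autoImplicit false

namespace Pool.Agent.helper133_ap

open Finset

lemma prod_expand (k : ℕ) : ∃ C : ℝ, 0 ≤ C ∧ ∀ (x : ℕ → ℝ) (y : ℝ), 0 ≤ y → y ≤ 1 →
    (∀ j, |x j| ≤ y) →
    |∏ j ∈ range k, (1 + x j) - 1| ≤ C * y ∧
    |∏ j ∈ range k, (1 + x j) - 1 - ∑ j ∈ range k, x j| ≤ C * y ^ 2 ∧
    |∏ j ∈ range k, (1 + x j) - 1 - ∑ j ∈ range k, x j
      - ∑ j ∈ range k, ∑ i ∈ range j, x i * x j| ≤ C * y ^ 3 := by
  induction k with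
  | zero => exact ⟨0, le_refl _, fun x y _ _ _ => by simp⟩
  | succ k ih =>
    obtain ⟨C, hC, ih⟩ := ih
    refine ⟨2 * C + 1, by linarith, fun x y hy0 hy1 hx => ?_⟩
    obtain ⟨h1, h2, h3⟩ := ih x y hy0 hy1 hx
    have hz := hx k
    simp only [Finset.prod_range_succ, Finset.sum_range_succ]
    set P := ∏ j ∈ range k, (1 + x j)
    set e1 := ∑ j ∈ range k, x j
    set e2 := ∑ j ∈ range k, ∑ i ∈ range j, x i * x j
    set z := x k
    have he : ∑ i ∈ range k, x i * z = e1 * z := by rw [← Finset.sum_mul]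
    rw [he]
    have hP : |P| ≤ 1 + C * y := by
      have : P = (P - 1) + 1 := by ring
      rw [this]
      refine (abs_add_le _ _).trans ?_
      rw [abs_one]
      linarith
    refine ⟨?_, ?_, ?_⟩
    · have : P * (1 + z) - 1 = (P - 1) + z * P := by ring
      rw [this]
      refine (abs_add_le _ _).trans ?_
      rw [abs_mul]
      have : |z| * |P| ≤ y * (1 + C * y) := mul_le_mul hz hP (abs_nonneg _) hy0
      nlinarith [mul_nonneg hC hy0]
    · have : P * (1 + z) - 1 - (e1 + z) = (P - 1 - e1) + z * (P - 1) := by ring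
      rw [this]
      refine (abs_add_le _ _).trans ?_
      rw [abs_mul]
      have : |z| * |P - 1| ≤ y * (C * y) := mul_le_mul hz h1 (abs_nonneg _) hy0
      nlinarith [mul_nonneg hC hy0, sq_nonneg y]
    · have : P * (1 + z) - 1 - (e1 + z) - (e2 + e1 * z)
          = (P - 1 - e1 - e2) + z * (P - 1 - e1) := by ring
      rw [this]
      refine (abs_add_le _ _).trans ?_
      rw [abs_mul]
      have : |z| * |P - 1 - e1| ≤ y * (C * y ^ 2) := mul_le_mul hz h2 (abs_nonneg _) hy0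
      have h5 : 0 ≤ y ^ 3 := by positivity
      nlinarith [mul_nonneg hC hy0, sq_nonneg y]

/-- extension of a colouring of `Fin n` by a fixed colour -/
def extCol {n r : ℕ} (hr : 0 < r) (ψ : Fin n → Fin r) (x : ℕ) : Fin r :=
  if h : x < n then ψ ⟨x, h⟩ else ⟨0, hr⟩

lemma mono_ind {k r : ℕ} (hk : 1 ≤ k) (f : ℕ → Fin r) :
    ∑ c : Fin r, ∏ j ∈ range k, (if f j = c then (1 : ℝ) else 0)
      = if (∀ j ∈ range k, f j = f 0) then 1 else 0 := by
  split_ifs with h
  · rw [Finset.sum_eq_single (f 0)]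
    · apply Finset.prod_eq_one
      intro j hj
      rw [if_pos (h j hj)]
    · intro c _ hc
      apply Finset.prod_eq_zero (i := 0) (by rw [mem_range]; omega)
      rw [if_neg (fun h => hc h.symm)]
    · intro h; exact absurd (Finset.mem_univ _) h
  · push Not at h
    obtain ⟨j, hj, hne⟩ := h
    apply Finset.sum_eq_zero
    intro c _
    by_cases hc : f 0 = c
    · apply Finset.prod_eq_zero hj
      rw [if_neg (fun h => hne (h.trans hc.symm))]
    · apply Finset.prod_eq_zero (i := 0) (by rw [mem_range]; omega)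
      rw [if_neg hc]

lemma weight_event {n r : ℕ} (p : ℕ → Fin r → ℝ) (hs : ∀ x, ∑ c, p x c = 1)
    (S : Finset (Fin n)) (c : Fin r) :
    ∑ ψ : Fin n → Fin r, (∏ x : Fin n, p x (ψ x)) * (∏ x ∈ S, if ψ x = c then (1 : ℝ) else 0)
      = ∏ x ∈ S, p x c := by
  have h1 : ∀ ψ : Fin n → Fin r,
      (∏ x : Fin n, p x (ψ x)) * (∏ x ∈ S, if ψ x = c then (1 : ℝ) else 0)
      = ∏ x : Fin n, (p x (ψ x) * (if x ∈ S then (if ψ x = c then (1 : ℝ) else 0) else 1)) := by
    intro ψ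
    rw [Finset.prod_mul_distrib]
    congr 1
    rw [Finset.prod_ite_mem]
    simp
  simp_rw [h1]
  have h2 := Finset.prod_univ_sum (ι := Fin n) (κ := fun _ => Fin r)
    (fun _ => (Finset.univ : Finset (Fin r)))
    (fun x c' => p x c' * (if x ∈ S then (if c' = c then (1 : ℝ) else 0) else 1))
  rw [Fintype.piFinset_univ] at h2
  rw [← h2]
  have h3 : ∀ x : Fin n, ∑ c' : Fin r,
      p x c' * (if x ∈ S then (if c' = c then (1 : ℝ) else 0) else 1)
      = if x ∈ S then p x c else 1 := by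
    intro x
    by_cases hx : x ∈ S
    · simp [hx]
    · simp [hx, hs]
  simp_rw [h3]
  rw [Finset.prod_ite_mem]
  simp

lemma weight_sum {n r : ℕ} (p : ℕ → Fin r → ℝ) (hs : ∀ x, ∑ c, p x c = 1) :
    ∑ ψ : Fin n → Fin r, (∏ x : Fin n, p x (ψ x)) = 1 := by
  have h2 := Finset.prod_univ_sum (ι := Fin n) (κ := fun _ => Fin r)
    (fun _ => (Finset.univ : Finset (Fin r))) (fun x c' => p x c')
  rw [Fintype.piFinset_univ] at h2
  rw [← h2]
  simp [hs]

lemma event_ap {k n r : ℕ} (hr : 0 < r) (hk : 2 ≤ k) (p : ℕ → Fin r → ℝ)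
    (hs : ∀ x, ∑ c, p x c = 1) {q : ℕ × ℕ} (hq : q ∈ apPairs k n) (c : Fin r) :
    ∑ ψ : Fin n → Fin r, (∏ x : Fin n, p x (ψ x))
      * (∏ j ∈ range k, if extCol hr ψ (q.1 + j * q.2) = c then (1 : ℝ) else 0)
      = ∏ j ∈ range k, p (q.1 + j * q.2) c := by
  rw [mem_apPairs hk] at hq
  obtain ⟨hd, hn⟩ := hq
  have hlt : ∀ j, j < k → q.1 + j * q.2 < n := by
    intro j hj
    have : j * q.2 ≤ (k - 1) * q.2 := Nat.mul_le_mul_right _ (by omega)
    omega
  have hn0 : 0 < n := by omega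
  let e : ℕ → Fin n := fun j => if h : q.1 + j * q.2 < n then ⟨q.1 + j * q.2, h⟩ else ⟨0, hn0⟩
  have he : ∀ j, j < k → (e j : ℕ) = q.1 + j * q.2 := by
    intro j hj
    simp only [e]
    rw [dif_pos (hlt j hj)]
  have hinj : Set.InjOn e (range k : Set ℕ) := by
    intro a ha b hb hab
    have ha' : a < k := by simpa using ha
    have hb' : b < k := by simpa using hb
    have h1 : (e a : ℕ) = (e b : ℕ) := by rw [hab]
    rw [he a ha', he b hb'] at h1
    have : a * q.2 = b * q.2 := by omega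
    exact Nat.eq_of_mul_eq_mul_right hd this
  have h1 := weight_event p hs ((range k).image e) c
  rw [Finset.prod_image hinj] at h1
  have h2 : ∏ j ∈ range k, p (e j) c = ∏ j ∈ range k, p (q.1 + j * q.2) c := by
    apply Finset.prod_congr rfl
    intro j hj
    rw [he j (by simpa using hj)]
  rw [h2] at h1
  rw [← h1]
  apply Finset.sum_congr rfl
  intro ψ _
  congr 1
  rw [Finset.prod_image hinj]
  apply Finset.prod_congr rfl
  intro j hj
  have hj' : j < k := by simpa using hj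
  have : extCol hr ψ (q.1 + j * q.2) = ψ (e j) := by
    unfold extCol
    rw [dif_pos (hlt j hj')]
    congr 1
    ext
    rw [he j hj']
  rw [this]

/-- monochromatic pairs -/
def mono {r : ℕ} (k n : ℕ) (ψ : ℕ → Fin r) : Finset (ℕ × ℕ) :=
  (apPairs k n).filter (fun q => ∀ j ∈ range k, ψ (q.1 + j * q.2) = ψ q.1)

lemma exists_low {k n r : ℕ} (hr : 0 < r) (hk : 2 ≤ k) (p : ℕ → Fin r → ℝ)
    (hp : ∀ x c, 0 < p x c) (hs : ∀ x, ∑ c, p x c = 1) :
    ∃ ψ : ℕ → Fin r, ((mono k n ψ).card : ℝ)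
      ≤ ∑ q ∈ apPairs k n, ∑ c : Fin r, ∏ j ∈ range k, p (q.1 + j * q.2) c := by
  set E := ∑ q ∈ apPairs k n, ∑ c : Fin r, ∏ j ∈ range k, p (q.1 + j * q.2) c with hE
  let w : (Fin n → Fin r) → ℝ := fun ψ => ∏ x : Fin n, p x (ψ x)
  have hw : ∀ ψ, 0 < w ψ := fun ψ => Finset.prod_pos (fun x _ => hp _ _)
  have hcard : ∀ ψ : Fin n → Fin r, ((mono k n (extCol hr ψ)).card : ℝ)
      = ∑ q ∈ apPairs k n, ∑ c : Fin r,
        ∏ j ∈ range k, (if extCol hr ψ (q.1 + j * q.2) = c then (1 : ℝ) else 0) := by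
    intro ψ
    unfold mono
    rw [Finset.card_filter]
    push_cast
    apply Finset.sum_congr rfl
    intro q _
    rw [mono_ind (by omega) (fun j => extCol hr ψ (q.1 + j * q.2))]
    simp
  have hsum : ∑ ψ : Fin n → Fin r, w ψ * ((mono k n (extCol hr ψ)).card : ℝ) = E := by
    simp_rw [hcard, Finset.mul_sum]
    rw [Finset.sum_comm]
    rw [hE]
    apply Finset.sum_congr rfl
    intro q hq
    rw [Finset.sum_comm]
    apply Finset.sum_congr rfl
    intro c _
    exact event_ap hr hk p hs hq c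
  have hsum2 : ∑ ψ : Fin n → Fin r, w ψ * E = E := by
    rw [← Finset.sum_mul, weight_sum p hs, one_mul]
  have hne : (Finset.univ : Finset (Fin n → Fin r)).Nonempty :=
    ⟨fun _ => ⟨0, hr⟩, Finset.mem_univ _⟩
  obtain ⟨ψ, _, hψ⟩ := Finset.exists_le_of_sum_le hne (hsum.trans hsum2.symm).le
  exact ⟨extCol hr ψ, le_of_mul_le_mul_left hψ (hw ψ)⟩

end Pool.Agent.helper133_ap
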